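import Pool.Agent.H128R3.GJB

set_option autoImplicit false

/-!
# Jensen polynomials of Hecke series of arbitrary sign, unscaled form
-/

namespace Pool.Agent.H128R3.GJB

open Complex Filter Topology Polynomial
open Pool.Agent.H471R3.GJ
open Pool.Agent.H24R2.JP (Hyperbolic)

/-- The Riemann hypothesis in terms of `XX`, odd case. -/
lemma rh_odd {H : Hk} (h : IsHk H) (he : H.ε ≠ 1) :
    (∀ z : ℂ, (dat H).XX z = 0 → z.re = 0) ↔
      ∀ s : ℂ, mellin (fun y : ℝ => ((H.φ y : ℝ) : ℂ)) s = 0 → s.re = H.k / 2 := by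
  have hk := kp_pos h
  constructor
  · intro h1 s hs
    have h2 := X1_kp h ((s - ((H.k / 2 : ℝ) : ℂ)) / (kp H : ℂ))
    rw [if_neg he] at h2
    have h3 : (kp H : ℂ) * ((s - ((H.k / 2 : ℝ) : ℂ)) / (kp H : ℂ)) = s - ((H.k / 2 : ℝ) : ℂ) := by
      field_simp [kp_ne h]
    have h4 : X1 H (s - ((H.k / 2 : ℝ) : ℂ)) = 0 := by
      unfold X1
      rw [add_sub_cancel]
      exact hs
    rw [h3, h4] at h2
    have h5 : ((s - ((H.k / 2 : ℝ) : ℂ)) / (kp H : ℂ)).re = 0 := by
      rcases mul_eq_zero.1 h2 with h6 | h6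
      · rw [h6]
        simp
      · exact h1 _ h6
    rw [Complex.div_ofReal_re] at h5
    rcases div_eq_zero_iff.1 h5 with h6 | h6
    · rw [Complex.sub_re, Complex.ofReal_re] at h6
      linarith
    · exact absurd h6 hk.ne'
  · intro h1 z hz
    have h2 := X1_kp h z
    rw [hz, mul_zero] at h2
    have h3 := h1 _ h2.symm
    rw [Complex.add_re, Complex.ofReal_re, Complex.re_ofReal_mul] at h3
    have h4 : kp H * z.re = 0 := by linarith
    rcases mul_eq_zero.1 h4 with h5 | h5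
    · exact absurd h5 hk.ne'
    · exact h5

lemma rh_iff {H : Hk} (h : IsHk H) :
    (∀ z : ℂ, (dat H).XX z = 0 → z.re = 0) ↔
      ∀ s : ℂ, mellin (fun y : ℝ => ((H.φ y : ℝ) : ℂ)) s = 0 → s.re = H.k / 2 := by
  by_cases he : H.ε = 1
  · exact rh_even h he
  · exact rh_odd h he

/-- Jensen polynomials, arbitrary sign, no positivity. -/
theorem jensen_nh {H : Hk} (h : IsHk H) :
    ∃ C : ℝ, 0 < C ∧
      (∀ d n : ℕ, 1 ≤ d → C * Real.log (d + 1) ≤ n →
        ∀ z : ℂ, aeval z (Je H d n) = 0 → z.im = 0 ∧ z.re < 0) ∧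
      ((∀ s : ℂ, mellin (fun y : ℝ => ((H.φ y : ℝ) : ℂ)) s = 0 → s.re = H.k / 2) ↔
        ∀ d n : ℕ, (n : ℝ) < C * Real.log (d + 1) → NH (Je H d n)) := by
  obtain ⟨hxx, -, -, hL⟩ := GJA.isHk_isL H h
  obtain ⟨-, -, ⟨C, hC, hhyp⟩, -⟩ := GJA.isL_all _ hL
  obtain ⟨⟨k0, hk0, -, -⟩, hnh1, hnh2, hnp⟩ := GJA.isL_nh _ hL
  have hk := kp_pos h
  have hk2 : (0 : ℝ) < kp H ^ 2 := by positivity
  have hkc : ((kp H : ℂ) ^ 2) = ((kp H ^ 2 : ℝ) : ℂ) := by push_cast; rfl
  have hlog2 : 0 < Real.log 2 := Real.log_pos (by norm_num)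
  set C' : ℝ := max C (k0 / Real.log 2) with hC'
  have hCC : C ≤ C' := le_max_left _ _
  have hC'0 : 0 < C' := lt_of_lt_of_le hC hCC
  have hlogd : ∀ d : ℕ, 1 ≤ d → Real.log 2 ≤ Real.log ((d : ℝ) + 1) := by
    intro d hd
    apply Real.log_le_log (by norm_num)
    have : (1 : ℝ) ≤ d := by exact_mod_cast hd
    linarith
  have hH : ∀ d n : ℕ, 1 ≤ d → C' * Real.log (d + 1) ≤ n →
        ∀ z : ℂ, aeval z (Je H d n) = 0 → z.im = 0 ∧ z.re < 0 := by
    intro d n hd hdn w hw
    have h1 := hlogd d hd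
    have hn1 : C * Real.log (d + 1) ≤ n := by
      refine le_trans ?_ hdn
      exact mul_le_mul_of_nonneg_right hCC (by linarith)
    have hn2 : k0 ≤ n := by
      have h2 : (k0 : ℝ) ≤ n := by
        calc (k0 : ℝ) = k0 / Real.log 2 * Real.log 2 := by field_simp
          _ ≤ C' * Real.log (d + 1) := by
            apply mul_le_mul (le_max_right _ _) h1 hlog2.le hC'0.le
          _ ≤ n := hdn
      exact_mod_cast h2
    have h3 := hnp k0 hk0 d n hn2 hd (hhyp d n hd hn1) (w / (kp H : ℂ) ^ 2) (by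
      rw [aeval_jensen h]
      have : (kp H : ℂ) ^ 2 * (w / (kp H : ℂ) ^ 2) = w := by
        field_simp [kp_ne h]
      rw [this, hw, mul_zero])
    rw [hkc, Complex.div_ofReal_im, Complex.div_ofReal_re] at h3
    constructor
    · rcases div_eq_zero_iff.1 h3.1 with h4 | h4
      · exact h4
      · exact absurd h4 hk2.ne'
    · by_contra hcon
      push Not at hcon
      have := div_nonneg hcon hk2.le
      linarith [h3.2]
  refine ⟨C', hC'0, hH, ?_⟩
  rw [← rh_iff h]
  constructor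
  · intro h1 d n _
    exact (nh_iff h d n).1 (hnh1 h1 d n)
  · intro h1
    apply hnh2
    intro d
    rw [nh_iff h]
    rcases lt_or_ge ((0 : ℕ) : ℝ) (C' * Real.log (d + 1)) with h2 | h2
    · exact h1 d 0 h2
    · rcases Nat.eq_zero_or_pos d with h3 | h3
      · -- degree zero: a constant
        subst h3
        by_cases h4 : Je H 0 0 = 0
        · left
          exact h4
        · right
          intro z hz
          exfalso
          apply h4
          unfold Je at hz ⊢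
          simp only [zero_add, Finset.range_one, Finset.sum_singleton, Nat.choose_self, Nat.cast_one,
            one_mul, pow_zero, mul_one, aeval_C, Complex.coe_algebraMap] at hz ⊢
          have h5 : ga H 0 = 0 := by exact_mod_cast hz
          rw [h5, map_zero]
      · right
        intro z hz
        have h4 := hH d 0 h3 h2 z hz
        exact ⟨h4.1, h4.2.le⟩

/-- The functional equation. -/
theorem X1_neg {H : Hk} (h : IsHk H) (w : ℂ) : X1 H (-w) = (-1) ^ (pr H) * X1 H w := by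
  obtain ⟨-, hX, -⟩ := (GJA.isL_all _ (GJA.isHk_isL H h).2.2.2).1
  have h1 : (dat H).XX (-w / kp H) = (dat H).XX (w / kp H) := by
    rw [← hX, ← hX]
    congr 1
    ring
  rw [X1_eq h, X1_eq h, h1]
  by_cases he : H.ε = 1
  · have hp : pr H = 0 := by
      unfold pr
      rw [if_pos he]
    rw [hp, if_pos he, if_pos he]
    ring
  · have hp : pr H = 1 := by
      unfold pr
      rw [if_neg he]
    rw [hp, if_neg he, if_neg he]
    ring

lemma pr_le (H : Hk) : pr H ≤ 1 := by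
  unfold pr
  split_ifs <;> norm_num

/-- The functional equation of the Mellin transform. -/
theorem mellin_fe {H : Hk} (h : IsHk H) (s : ℂ) :
    mellin (fun y : ℝ => ((H.φ y : ℝ) : ℂ)) ((H.k : ℂ) - s) =
      (-1) ^ (pr H) * mellin (fun y : ℝ => ((H.φ y : ℝ) : ℂ)) s := by
  have h1 := X1_neg h (s - ((H.k / 2 : ℝ) : ℂ))
  unfold X1 at h1
  have e1 : ((H.k / 2 : ℝ) : ℂ) + -(s - ((H.k / 2 : ℝ) : ℂ)) = (H.k : ℂ) - s := by
    push_cast
    ring
  rw [e1, add_sub_cancel] at h1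
  exact h1

theorem mellin_diff {H : Hk} (h : IsHk H) : Differentiable ℂ (mellin (fun y : ℝ => ((H.φ y : ℝ) : ℂ))) := by
  have h1 : mellin (fun y : ℝ => ((H.φ y : ℝ) : ℂ)) = fun s => X1 H (s - ((H.k / 2 : ℝ) : ℂ)) := by
    funext s
    unfold X1
    rw [add_sub_cancel]
  rw [h1]
  exact (X1_diff h).comp (differentiable_id.sub_const _)

/-- Derivatives at the central point. -/
theorem ga_mellin (H : Hk) (k : ℕ) : ga H k =
    (k.factorial : ℝ) / ((2 * k + pr H).factorial : ℝ) *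
      (iteratedDeriv (2 * k + pr H) (mellin (fun y : ℝ => ((H.φ y : ℝ) : ℂ))) ((H.k / 2 : ℝ) : ℂ)).re := by
  unfold ga
  have h1 : X1 H = fun z => mellin (fun y : ℝ => ((H.φ y : ℝ) : ℂ)) (((H.k / 2 : ℝ) : ℂ) + z) := rfl
  rw [h1, iteratedDeriv_comp_const_add]
  simp only [add_zero]

end Pool.Agent.H128R3.GJB
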