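import Pool.Agent.H471R3.GJ.XiFinal
import Pool.Agent.H471R3.GJ.Simple
import Pool.Agent.H471R3.GJ.SimpleWin
import Pool.Agent.H471R3.GJ.ExZero
import Pool.Agent.H471R3.GJ.XDer
import Pool.Agent.H471R3.GJ.Hyp
import Pool.Agent.H471R3.GJ.RH1
import Pool.Agent.H471R3.GJ.RH2
import Pool.Agent.H471R3.GJ.HIsL
import Pool.Agent.H471R3.GJ.HXX
import Pool.Agent.H471R3.GJ.HPhi0
import Pool.Agent.H471R3.GJ.HOdd
import Pool.Agent.H471R3.GJ.HDir
import Pool.Agent.H471R3.GJ.HMel
import Pool.Agent.H471R3.GJ.HLog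
import Pool.Agent.H471R3.GJ.HKer
import Pool.Agent.H471R3.GJ.Tail
import Pool.Agent.H471R3.GJ.Stir
import Pool.Agent.H471R3.GJ.B1
import Pool.Agent.H471R3.GJ.Low
import Pool.Agent.H471R3.GJ.Zeros
import Pool.Agent.H471R3.GJ.Grow
import Pool.Agent.H471R3.GJ.Gam
import Pool.Agent.H471R3.GJ.Good
import Pool.Agent.H471R3.GJ.Facts
import Pool.Agent.H471R3.GJ.Chain
import Pool.Agent.H471R3.GJ.WinS
import Pool.Agent.H471R3.GJ.Off
import Pool.Agent.H471R3.GJ.Piece
import Pool.Agent.H471R3.GJ.MainT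
import Pool.Agent.H471R3.GJ.Up
import Pool.Agent.H471R3.GJ.Down
import Pool.Agent.H471R3.GJ.Conv
import Pool.Agent.H471R3.GJ.Mom
import Pool.Agent.H471R3.GJ.NH1
import Pool.Agent.H471R3.GJ.NH2
import Pool.Agent.H471R3.GJ.NHPos
import Pool.Agent.H24R2.JP.Arc
import Pool.Agent.H24R2.JP.Chasse
import Pool.Agent.H24R2.JP.Der
import Pool.Agent.H24R2.JP.Had
import Pool.Agent.H24R2.JP.JensenS
import Pool.Agent.H24R2.JP.Limit
import Pool.Agent.H24R2.JP.Newton
import Pool.Agent.H24R2.JP.ParCirc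
import Pool.Agent.H24R2.JP.Polys
import Pool.Agent.H24R2.JP.Sector
import Pool.Agent.H24R2.JP.OpGood
import Pool.Agent.H24R2.JP.OpCirc
import Pool.Agent.H24R2.JP.OpLag
import Pool.Agent.H24R2.JP.OpChain
import Pool.Agent.H24R2.JP.DerLag

set_option autoImplicit false

/-!
# The generic theorems for Hecke series, composed
-/

namespace Pool.Agent.H128R3.GJA

open Complex Filter Topology Polynomial
open Pool.Agent.H471R3.GJ
open Pool.Agent.H24R2.JP (Hyperbolic)

theorem sder : Pool.Agent.H24R2.JP.SDer := Pool.Agent.H24R2.JP.der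
theorem sgl : Pool.Agent.H24R2.JP.SGL := Pool.Agent.H24R2.JP.gl
theorem sjen : Pool.Agent.H24R2.JP.SJen := Pool.Agent.H24R2.JP.jen
theorem spar : Pool.Agent.H24R2.JP.SPar := Pool.Agent.H24R2.JP.par sder sgl
theorem scircle : Pool.Agent.H24R2.JP.SCircle := Pool.Agent.H24R2.JP.circ sder sgl sjen
theorem ssector : Pool.Agent.H24R2.JP.SSector := Pool.Agent.H24R2.JP.sector Pool.Agent.H24R2.JP.chasse
theorem sjensen : Pool.Agent.H24R2.JP.SJensen :=
  Pool.Agent.H24R2.JP.jensenS sder sgl ssector Pool.Agent.H24R2.JP.limit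
theorem snewton : Pool.Agent.H24R2.JP.SNewton := Pool.Agent.H24R2.JP.newton sder sgl

/-- The generic theorem for the class `IsL`. -/
theorem isL_all (D : Dat) (h : IsL D) :
    SB1 D ∧ SGamPos D ∧ SHyp D ∧ SRH1 D ∧ SRH2 D ∧ SXi D ∧ SXiOdd D := by
  have hb := b1 D h
  have hm := mom D h
  have hgp := gamPos D h
  have hg := gamS D hm
  have hgr := grow D h hb
  have hz := zeros D h hb
  have hgood := good D Pool.Agent.H24R2.JP.had sder sgl hb hgr hz hg
  have hf := facts D hgood spar scircle sjensen snewton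
  have hlow := low D hf hg hb
  have hst := stir D h
  have htail := tail D h
  have hconv := conv D h hb
  have hup := up D h hst htail hconv hb
  have hdown := down D h hst
  have hpc := piece D h hst
  have hmain := mainS D h hup hdown hpc Pool.Agent.H24R2.JP.arcS hst
  have hoff := off D h hmain Pool.Agent.H24R2.JP.arcS hb hst
  have hwin := win D h hoff hb
  have hch := chain D h hf hwin hlow
  have hex := exZero D Pool.Agent.H24R2.JP.had hgr hb hg
  have hsw := simpleWin D h hmain Pool.Agent.H24R2.JP.arcS hb hst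
  have hsim := simple D h hch hlow hsw (Pool.Agent.H24R2.JP.derLag sder) hex hgood hb
  have hop : Pool.Agent.H24R2.JP.SOpChain := Pool.Agent.H24R2.JP.opChain spar
    (Pool.Agent.H24R2.JP.opGood sder) (Pool.Agent.H24R2.JP.opCirc sder) (Pool.Agent.H24R2.JP.opLag sder)
  exact ⟨hb, hgp, hyp D h hch hf hb, rh1 D Pool.Agent.H24R2.JP.had scircle sjensen hb hgr hz,
    rh2 D hb, xiF D h hsim (xder D hb) hop hgood spar hb, xiFodd D h hsim (xderOdd D hb) hop hgood spar hb⟩

/-- The generic theorem for the class `IsL`, without positivity. -/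
theorem isL_nh (D : Dat) (h : IsL D) : SGam D ∧ SNH1 D ∧ SNH2 D ∧ SNHpos D := by
  have hb := b1 D h
  have hm := mom D h
  have hg := gamS D hm
  have hgr := grow D h hb
  have hz := zeros D h hb
  have hgood := good D Pool.Agent.H24R2.JP.had sder sgl hb hgr hz hg
  exact ⟨hg, nh1 D Pool.Agent.H24R2.JP.had scircle sjensen hb hgr hz hg hgood, nh2 D hb hg, nhpos D⟩

/-- The generic theorem for Hecke series. -/
theorem isHk_isL (H : Hk) (h : IsHk H) : SXX H ∧ SPhi0 H ∧ SMel H ∧ IsL (dat H) := by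
  have h1 := ker H h
  have h2 := phi0 H h h1
  have h3 := phiH H h h2 odd
  have h4 := mel H h h1
  have h5 := dir H h
  have h6 := logH H h
  have h7 := xx H h h3 odd h2 h4 h5
  exact ⟨h7, h2, h4, isL H h h3 h6 h7⟩

end Pool.Agent.H128R3.GJA
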