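import Pool.Agent.H128R3.GJA
import Pool.Agent.H471R3.GJ.Prod

set_option autoImplicit false

/-!
# The generic theorems in unscaled form
-/

namespace Pool.Agent.H128R3.GJB

open Complex Filter Topology Polynomial
open Pool.Agent.H471R3.GJ
open Pool.Agent.H24R2.JP (Hyperbolic)

/-- The completed function, centred. -/
noncomputable def X1 (H : Hk) (z : ℂ) : ℂ :=
  mellin (fun y : ℝ => ((H.φ y : ℝ) : ℂ)) (((H.k / 2 : ℝ) : ℂ) + z)

open Classical in
/-- The parity. -/
noncomputable def pr (H : Hk) : ℕ := if H.ε = 1 then 0 else 1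

/-- The Taylor coefficients: `X1 z = z ^ pr * ∑ ga k * z ^ (2 k) / k!`. -/
noncomputable def ga (H : Hk) (k : ℕ) : ℝ :=
  (k.factorial : ℝ) / ((2 * k + pr H).factorial : ℝ) * (iteratedDeriv (2 * k + pr H) (X1 H) 0).re

/-- The Jensen polynomials. -/
noncomputable def Je (H : Hk) (d n : ℕ) : ℝ[X] :=
  ∑ j ∈ Finset.range (d + 1), Polynomial.C ((d.choose j : ℝ) * ga H (n + j)) * Polynomial.X ^ j

lemma kp_pos {H : Hk} (h : IsHk H) : 0 < kp H := by
  unfold kp
  have := h.β_nonneg
  have := h.B_one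
  linarith

lemma kp_one {H : Hk} (h : IsHk H) : 1 ≤ kp H := by
  unfold kp
  have := h.β_nonneg
  have := h.B_one
  linarith

lemma kp_ne {H : Hk} (h : IsHk H) : (kp H : ℂ) ≠ 0 := by
  exact_mod_cast (kp_pos h).ne'

open Classical in
lemma X1_kp {H : Hk} (h : IsHk H) (z : ℂ) :
    (if H.ε = 1 then 1 else z) * (dat H).XX z = X1 H ((kp H : ℂ) * z) := by
  have h1 := (GJA.isHk_isL H h).1.1 z
  rw [h1]
  rfl

lemma XX_diff {H : Hk} (h : IsHk H) : Differentiable ℂ (dat H).XX := by
  obtain ⟨hF, hX, -⟩ := (GJA.isL_all _ (GJA.isHk_isL H h).2.2.2).1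
  have : (dat H).XX = fun z => FF (dat H) (z ^ 2) := by
    funext z
    rw [hX]
  rw [this]
  exact hF.comp (differentiable_id.pow 2)

open Classical in
lemma X1_eq {H : Hk} (h : IsHk H) (w : ℂ) :
    X1 H w = (if H.ε = 1 then 1 else w / kp H) * (dat H).XX (w / kp H) := by
  rw [X1_kp h]
  congr 1
  field_simp [kp_ne h]

lemma X1_diff {H : Hk} (h : IsHk H) : Differentiable ℂ (X1 H) := by
  have h1 : X1 H = fun w => (if H.ε = 1 then (1 : ℂ) else w / kp H) * (dat H).XX (w / kp H) := by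
    funext w
    exact X1_eq h w
  rw [h1]
  have h2 : Differentiable ℂ (fun w : ℂ => (dat H).XX (w / kp H)) :=
    (XX_diff h).comp (differentiable_id.div_const _)
  by_cases he : H.ε = 1
  · simp only [he, if_true, one_mul]
    exact h2
  · simp only [he, if_false]
    exact (differentiable_id.div_const _).mul h2

lemma iter_X1 {H : Hk} (h : IsHk H) (n : ℕ) (z : ℂ) :
    iteratedDeriv n (fun z : ℂ => X1 H ((kp H : ℂ) * z)) z =
      (kp H : ℂ) ^ n * iteratedDeriv n (X1 H) ((kp H : ℂ) * z) := by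
  have := iteratedDeriv_comp_const_mul (n := n) (f := X1 H) ((X1_diff h).contDiff) (kp H : ℂ)
  exact congrFun this z

lemma iter_id_mul {g : ℂ → ℂ} (hg : Differentiable ℂ g) (m : ℕ) :
    iteratedDeriv (m + 1) (fun z : ℂ => z * g z) 0 = ((m + 1 : ℕ) : ℂ) * iteratedDeriv m g 0 := by
  have h1 : ContDiffAt ℂ ((m + 1 : ℕ) : WithTop ℕ∞) (fun z : ℂ => z) 0 := contDiffAt_id
  have h2 : ContDiffAt ℂ ((m + 1 : ℕ) : WithTop ℕ∞) g 0 := hg.contDiff.contDiffAt
  have h3 := iteratedDeriv_mul h1 h2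
  have h4 : (fun z : ℂ => z * g z) = ((fun z : ℂ => z) * g) := rfl
  rw [h4, h3, Finset.sum_eq_single 1]
  · have h5 : iteratedDeriv 1 (fun z : ℂ => z) 0 = 1 := by
      rw [iteratedDeriv_one]
      simp
    rw [h5]
    simp
  · intro i hi hi1
    rcases Nat.lt_or_gt_of_ne hi1 with h6 | h6
    · have : i = 0 := by omega
      subst this
      simp
    · have h7 : iteratedDeriv i (fun z : ℂ => z) 0 = 0 := by
        obtain ⟨j, rfl⟩ : ∃ j, i = j + 2 := ⟨i - 2, by omega⟩
        rw [iteratedDeriv_succ']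
        have h8 : deriv (fun z : ℂ => z) = fun _ => (1 : ℂ) := by
          funext z
          simp
        rw [h8, iteratedDeriv_succ']
        simp
      rw [h7]
      simp
  · intro h6
    exfalso
    apply h6
    rw [Finset.mem_range]
    omega

lemma gam_eq {H : Hk} (h : IsHk H) (k : ℕ) :
    gam (dat H) k = kp H ^ (2 * k + pr H) * ga H k := by
  have hk := kp_pos h
  unfold gam ga
  by_cases he : H.ε = 1
  · have hp : pr H = 0 := by
      unfold pr
      rw [if_pos he]
    have h1 : (dat H).XX = fun z : ℂ => X1 H ((kp H : ℂ) * z) := by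
      funext z
      have := X1_kp h z
      rw [if_pos he, one_mul] at this
      exact this
    rw [h1, iter_X1 h, hp, mul_zero]
    have h2 : (kp H : ℂ) ^ (2 * k) = ((kp H ^ (2 * k) : ℝ) : ℂ) := by push_cast; rfl
    rw [h2, Complex.re_ofReal_mul]
    simp only [add_zero]
    ring
  · have hp : pr H = 1 := by
      unfold pr
      rw [if_neg he]
    have h1 : (fun z : ℂ => z * (dat H).XX z) = fun z : ℂ => X1 H ((kp H : ℂ) * z) := by
      funext z
      have := X1_kp h z
      rw [if_neg he] at this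
      exact this
    have h3 := iter_id_mul (XX_diff h) (2 * k)
    rw [h1, iter_X1 h, mul_zero] at h3
    have h2 : (kp H : ℂ) ^ (2 * k + 1) = ((kp H ^ (2 * k + 1) : ℝ) : ℂ) := by push_cast; rfl
    rw [h2] at h3
    have h4 := congrArg Complex.re h3
    have h5 : (((2 * k + 1 : ℕ) : ℂ)) = (((2 * k + 1 : ℕ) : ℝ) : ℂ) := by push_cast; rfl
    rw [h5, Complex.re_ofReal_mul, Complex.re_ofReal_mul] at h4
    rw [hp]
    have h6 : ((2 * k + 1).factorial : ℝ) = ((2 * k + 1 : ℕ) : ℝ) * ((2 * k).factorial : ℝ) := by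
      rw [Nat.factorial_succ]
      push_cast
      ring
    rw [h6]
    have h7 : (((2 * k + 1 : ℕ) : ℝ)) ≠ 0 := by positivity
    have h8 : ((2 * k).factorial : ℝ) ≠ 0 := by positivity
    field_simp
    rw [mul_comm ((kp H) ^ (2 * k + 1))]
    linarith

lemma aeval_jensen {H : Hk} (h : IsHk H) (d n : ℕ) (z : ℂ) :
    aeval z (jensen (dat H) d n) = (kp H : ℂ) ^ (2 * n + pr H) * aeval ((kp H : ℂ) ^ 2 * z) (Je H d n) := by
  unfold jensen Je
  rw [map_sum, map_sum, Finset.mul_sum]
  refine Finset.sum_congr rfl fun j _ => ?_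
  rw [gam_eq h]
  simp only [map_mul, aeval_C, map_pow, aeval_X, Complex.coe_algebraMap]
  push_cast
  have : 2 * (n + j) + pr H = (2 * n + pr H) + 2 * j := by ring
  rw [this, pow_add]
  ring

lemma hyp_iff {H : Hk} (h : IsHk H) (d n : ℕ) :
    Hyperbolic (jensen (dat H) d n) ↔ Hyperbolic (Je H d n) := by
  have hk := kp_pos h
  have hk2 : (0 : ℝ) < kp H ^ 2 := by positivity
  have hkc : ((kp H : ℂ) ^ 2) = ((kp H ^ 2 : ℝ) : ℂ) := by push_cast; rfl
  constructor
  · intro h1 w hw
    have h2 := h1 (w / (kp H : ℂ) ^ 2) (by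
      rw [aeval_jensen h]
      have : (kp H : ℂ) ^ 2 * (w / (kp H : ℂ) ^ 2) = w := by
        field_simp [kp_ne h]
      rw [this, hw, mul_zero])
    rw [hkc, Complex.div_ofReal_im] at h2
    rcases div_eq_zero_iff.1 h2 with h3 | h3
    · exact h3
    · exact absurd h3 hk2.ne'
  · intro h1 z hz
    rw [aeval_jensen h] at hz
    rcases mul_eq_zero.1 hz with h2 | h2
    · exact absurd h2 (pow_ne_zero _ (kp_ne h))
    · have h3 := h1 _ h2
      rw [hkc, Complex.im_ofReal_mul] at h3
      rcases mul_eq_zero.1 h3 with h4 | h4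
      · exact absurd h4 hk2.ne'
      · exact h4

lemma nh_iff {H : Hk} (h : IsHk H) (d n : ℕ) :
    NH (jensen (dat H) d n) ↔ NH (Je H d n) := by
  have hk := kp_pos h
  have hk2 : (0 : ℝ) < kp H ^ 2 := by positivity
  have hkc : ((kp H : ℂ) ^ 2) = ((kp H ^ 2 : ℝ) : ℂ) := by push_cast; rfl
  have hkn : (kp H : ℂ) ^ (2 * n + pr H) ≠ 0 := pow_ne_zero _ (kp_ne h)
  have hinj : ∀ P : ℝ[X], (∀ z : ℂ, aeval z P = 0) → P = 0 := by
    intro P hP
    by_contra hne
    have h1 : P.map (algebraMap ℝ ℂ) ≠ 0 := by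
      rwa [Ne, Polynomial.map_eq_zero_iff (algebraMap ℝ ℂ).injective]
    apply h1
    apply Polynomial.funext
    intro z
    have := hP z
    rw [Polynomial.aeval_def, ← Polynomial.eval_map] at this
    rw [this, Polynomial.eval_zero]
  constructor
  · rintro (h1 | h1)
    · left
      apply hinj
      intro w
      have h2 := aeval_jensen h d n (w / (kp H : ℂ) ^ 2)
      rw [h1, map_zero] at h2
      have h3 : (kp H : ℂ) ^ 2 * (w / (kp H : ℂ) ^ 2) = w := by
        field_simp [kp_ne h]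
      rw [h3] at h2
      rcases mul_eq_zero.1 h2.symm with h4 | h4
      · exact absurd h4 hkn
      · exact h4
    · right
      intro w hw
      have h2 := h1 (w / (kp H : ℂ) ^ 2) (by
        rw [aeval_jensen h]
        have : (kp H : ℂ) ^ 2 * (w / (kp H : ℂ) ^ 2) = w := by
          field_simp [kp_ne h]
        rw [this, hw, mul_zero])
      rw [hkc, Complex.div_ofReal_im, Complex.div_ofReal_re] at h2
      constructor
      · rcases div_eq_zero_iff.1 h2.1 with h3 | h3
        · exact h3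
        · exact absurd h3 hk2.ne'
      · by_contra hcon
        push Not at hcon
        have := div_pos hcon hk2
        linarith [h2.2]
  · rintro (h1 | h1)
    · left
      apply hinj
      intro z
      rw [aeval_jensen h, h1, map_zero, mul_zero]
    · right
      intro z hz
      rw [aeval_jensen h] at hz
      rcases mul_eq_zero.1 hz with h2 | h2
      · exact absurd h2 hkn
      · have h3 := h1 _ h2
        rw [hkc, Complex.im_ofReal_mul, Complex.re_ofReal_mul] at h3
        constructor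
        · rcases mul_eq_zero.1 h3.1 with h4 | h4
          · exact absurd h4 hk2.ne'
          · exact h4
        · by_contra hcon
          push Not at hcon
          have := mul_pos hk2 hcon
          linarith [h3.2]

/-- The Riemann hypothesis in terms of `XX`, even case. -/
lemma rh_even {H : Hk} (h : IsHk H) (he : H.ε = 1) :
    (∀ z : ℂ, (dat H).XX z = 0 → z.re = 0) ↔
      ∀ s : ℂ, mellin (fun y : ℝ => ((H.φ y : ℝ) : ℂ)) s = 0 → s.re = H.k / 2 := by
  have hk := kp_pos h
  constructor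
  · intro h1 s hs
    have h2 := X1_kp h ((s - ((H.k / 2 : ℝ) : ℂ)) / (kp H : ℂ))
    rw [if_pos he, one_mul] at h2
    have h3 : (kp H : ℂ) * ((s - ((H.k / 2 : ℝ) : ℂ)) / (kp H : ℂ)) = s - ((H.k / 2 : ℝ) : ℂ) := by
      field_simp [kp_ne h]
    have h4 : X1 H (s - ((H.k / 2 : ℝ) : ℂ)) = 0 := by
      unfold X1
      rw [add_sub_cancel]
      exact hs
    rw [h3, h4] at h2
    have h5 := h1 _ h2
    rw [Complex.div_ofReal_re] at h5
    rcases div_eq_zero_iff.1 h5 with h6 | h6
    · rw [Complex.sub_re, Complex.ofReal_re] at h6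
      linarith
    · exact absurd h6 hk.ne'
  · intro h1 z hz
    have h2 := X1_kp h z
    rw [hz, mul_zero] at h2
    have h3 := h1 _ h2.symm
    rw [Complex.add_re, Complex.ofReal_re, Complex.re_ofReal_mul] at h3
    have h4 : kp H * z.re = 0 := by linarith
    rcases mul_eq_zero.1 h4 with h5 | h5
    · exact absurd h5 hk.ne'
    · exact h5

/-- Jensen polynomials, even case with a positive kernel. -/
theorem jensen_even {H : Hk} (h : IsHk H) (he : H.ε = 1) (hφ : ∀ y, 0 < y → 0 < H.φ y) :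
    ∃ C : ℝ, 0 < C ∧
      (∀ d n : ℕ, C * Real.log (d + 1) ≤ n → Hyperbolic (Je H d n)) ∧
      ((∀ s : ℂ, mellin (fun y : ℝ => ((H.φ y : ℝ) : ℂ)) s = 0 → s.re = H.k / 2) ↔
        ∀ d n : ℕ, (n : ℝ) < C * Real.log (d + 1) → Hyperbolic (Je H d n)) := by
  obtain ⟨hxx, -, -, hL⟩ := GJA.isHk_isL H h
  obtain ⟨-, hgp, ⟨C, hC, hhyp⟩, hrh1, hrh2, -⟩ := GJA.isL_all _ hL
  have hΦ : ∀ t, 0 < (dat H).Φ t := by
    intro t
    show 0 < PhiH H t
    unfold PhiH
    rw [if_pos he]
    unfold Phi0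
    have := kp_pos h
    have h2 := hφ (Real.exp (t / kp H)) (Real.exp_pos _)
    positivity
  have hgam := hgp hΦ
  have hga : ∀ k, 0 < ga H k := by
    intro k
    have h1 := hgam k
    rw [gam_eq h] at h1
    exact (pos_iff_pos_of_mul_pos h1).1 (by have := kp_pos h; positivity)
  have h0 : ∀ n, Hyperbolic (Je H 0 n) := by
    intro n z hz
    exfalso
    unfold Je at hz
    simp only [zero_add, Finset.range_one, Finset.sum_singleton, Nat.choose_self, Nat.cast_one,
      add_zero, one_mul, pow_zero, mul_one, aeval_C, Complex.coe_algebraMap] at hz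
    have h1 := hga n
    have h2 : ga H n = 0 := by exact_mod_cast hz
    linarith
  have hH : ∀ d n : ℕ, C * Real.log (d + 1) ≤ n → Hyperbolic (Je H d n) := by
    intro d n hdn
    rcases Nat.eq_zero_or_pos d with h1 | h1
    · subst h1
      exact h0 n
    · exact (hyp_iff h d n).1 (hhyp d n h1 hdn)
  refine ⟨C, hC, hH, ?_⟩
  rw [← rh_even h he]
  constructor
  · intro h1 d n _
    exact (hyp_iff h d n).1 (hrh1 hgam h1 d n)
  · intro h1
    apply hrh2 hgam
    intro d
    rw [hyp_iff h]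
    rcases lt_or_ge ((0 : ℕ) : ℝ) (C * Real.log (d + 1)) with h2 | h2
    · exact h1 d 0 h2
    · exact hH d 0 h2

/-- Zeros of the derivatives of the completed function. -/
theorem deriv_zeros {H : Hk} (h : IsHk H) :
    ∃ c : ℝ, 0 < c ∧ ∃ N0 : ℕ, ∀ n : ℕ, N0 ≤ n → ∀ s : ℂ,
      iteratedDeriv n (mellin (fun y : ℝ => ((H.φ y : ℝ) : ℂ))) s = 0 →
      |s.im| ≤ Real.exp (c * n) →
      s.re = H.k / 2 ∧ iteratedDeriv (n + 1) (mellin (fun y : ℝ => ((H.φ y : ℝ) : ℂ))) s ≠ 0 := by
  obtain ⟨hxx, -, -, hL⟩ := GJA.isHk_isL H h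
  obtain ⟨-, -, -, -, -, hxi, hxio⟩ := GJA.isL_all _ hL
  have hk := kp_pos h
  have hal : 0 < al (dat H) := HypAux.al_pos _ hL
  set M : ℂ → ℂ := mellin (fun y : ℝ => ((H.φ y : ℝ) : ℂ)) with hM
  -- translation
  have htr : ∀ (n : ℕ) (s : ℂ), iteratedDeriv n M s = iteratedDeriv n (X1 H) (s - ((H.k / 2 : ℝ) : ℂ)) := by
    intro n s
    have h1 : X1 H = fun z => M (((H.k / 2 : ℝ) : ℂ) + z) := rfl
    rw [h1]
    have h2 := iteratedDeriv_comp_const_add n M ((H.k / 2 : ℝ) : ℂ)
    have h3 := congrFun h2 (s - ((H.k / 2 : ℝ) : ℂ))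
    rw [h3, add_sub_cancel]
  have hsc : ∀ (n : ℕ) (w : ℂ), iteratedDeriv n (fun z : ℂ => X1 H ((kp H : ℂ) * z)) (w / (kp H : ℂ)) =
      (kp H : ℂ) ^ n * iteratedDeriv n (X1 H) w := by
    intro n w
    rw [iter_X1 h]
    congr 2
    field_simp [kp_ne h]
  -- the common statement
  have hcom : ∃ N0 : ℕ, ∀ n : ℕ, N0 ≤ n → ∀ z : ℂ,
      iteratedDeriv n (fun z : ℂ => X1 H ((kp H : ℂ) * z)) z = 0 →
      |z.im| ≤ Real.exp (al (dat H) * n / 5) →
      z.re = 0 ∧ iteratedDeriv (n + 1) (fun z : ℂ => X1 H ((kp H : ℂ) * z)) z ≠ 0 := by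
    by_cases he : H.ε = 1
    · have h1 : (dat H).XX = fun z : ℂ => X1 H ((kp H : ℂ) * z) := by
        funext z
        have := X1_kp h z
        rw [if_pos he, one_mul] at this
        exact this
      rw [← h1]
      exact hxi
    · have h1 : (fun z : ℂ => z * (dat H).XX z) = fun z : ℂ => X1 H ((kp H : ℂ) * z) := by
        funext z
        have := X1_kp h z
        rw [if_neg he] at this
        exact this
      rw [← h1]
      exact hxio
  obtain ⟨N0, hN0⟩ := hcom
  refine ⟨al (dat H) / 5, by positivity, N0, ?_⟩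
  intro n hn s hs him
  rw [htr] at hs
  have h1 := hN0 n hn ((s - ((H.k / 2 : ℝ) : ℂ)) / (kp H : ℂ)) (by rw [hsc, hs, mul_zero]) (by
    rw [Complex.div_ofReal_im, Complex.sub_im, Complex.ofReal_im, sub_zero, abs_div, abs_of_pos hk]
    have h2 : |s.im| / kp H ≤ |s.im| := div_le_self (abs_nonneg _) (kp_one h)
    refine h2.trans (him.trans (le_of_eq ?_))
    congr 1
    ring)
  obtain ⟨h2, h3⟩ := h1
  constructor
  · rw [Complex.div_ofReal_re] at h2
    rcases div_eq_zero_iff.1 h2 with h4 | h4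
    · rw [Complex.sub_re, Complex.ofReal_re] at h4
      linarith
    · exact absurd h4 hk.ne'
  · rw [htr]
    intro h4
    apply h3
    rw [hsc, h4, mul_zero]

end Pool.Agent.H128R3.GJB
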